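import Pool.Agent.Lib.MP_eee7a8_ag.TB.IfaceA

/-!
# TAGBR: module CHART (every triangulation is a chart)
-/

open Matrix

namespace Pool.Agent.Lib.MP_eee7a8_ag.TB

theorem AChart.lam_same {G : Subgroup SLZ} {K : Type*} [Field K] [Algebra ℂ K] (L : Lam G K)
    {a b c d : Cusp} (h : SameArc G a b c d) : L.lam c d = L.lam a b := by
  obtain ⟨g, hg, ⟨h1, h2⟩ | ⟨h1, h2⟩⟩ := h
  · rw [← h1, ← h2, L.inv g hg]
  · rw [← h1, ← h2, L.symm, L.inv g hg]

theorem chart (hFa : FareyStatement) (hMF : MaxFlipStatement) (hFl : FlipStatement)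
    (hFI : FlipIndStatement) (hM : MatchStatement) (hCI : ChartIndStatement) :
    ChartStatement := by
  intro G K _ _ L hG ι _ T hT
  apply hCI
  obtain ⟨n, T0, hT0, hE0⟩ := hFa G hG
  have hI0 : L.Ind T0 := by
    apply L.free
    · intro i
      exact (hE0 _ _).1 (T0.E_self i)
    · intro i j hij g hg
      constructor
      · rintro ⟨h1, h2⟩
        exact hij (hT0.inj i j ⟨g, hg, Or.inl ⟨h1, h2⟩⟩)
      · rintro ⟨h1, h2⟩
        exact hij (hT0.inj i j ⟨g, hg, Or.inr ⟨h1, h2⟩⟩)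
  obtain ⟨T1, hT1, hq, hsub⟩ := hMF G hG (Fin n) ι T0 T hT0 hT.toNonCross
  have hI1 : T1.IsTri G ∧ L.Ind T1 := by
    unfold FlipEqv at hq
    clear hT1 hsub
    induction hq with
    | refl => exact ⟨hT0, hI0⟩
    | tail _ hstep ih =>
      exact ⟨hFl G hG (Fin n) _ _ _ ih.1 hstep, hFI G K L hG (Fin n) _ _ _ ih.1 hstep ih.2⟩
  obtain ⟨e, he⟩ := hM G (Fin n) ι T1 T hT1 hT hsub
  have h1 : (fun i => L.lam (T1.s i) (T1.t i)) = (fun i => L.lam (T.s i) (T.t i)) ∘ e := by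
    funext i
    exact (AChart.lam_same L (he i)).symm
  have h2 : AlgebraicIndependent ℂ (fun i => L.lam (T1.s i) (T1.t i)) := hI1.2
  rw [h1] at h2
  exact (algebraicIndependent_equiv e).1 h2

end Pool.Agent.Lib.MP_eee7a8_ag.TB
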