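import Pool.Agent.Lib.MP_eee7a8_ag.TB.IfaceA

/-!
# TAGBR: module FLIPIND (flips preserve algebraic independence), from SIDES
-/

open Matrix

namespace Pool.Agent.Lib.MP_eee7a8_ag.TB.AFlipInd

variable {G : Subgroup SLZ} {K : Type*} [Field K] [Algebra ℂ K]

/-- Exchange of one member `x i` of an algebraically independent family by `P / x i`. -/
theorem exchange {ι : Type} (x x' : ι → K) (i : ι) (hx : AlgebraicIndependent ℂ x)
    (hne : ∀ j, j ≠ i → x' j = x j) (j1 j2 j3 j4 : ι) (h1 : j1 ≠ i) (h2 : j2 ≠ i) (h3 : j3 ≠ i)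
    (h4 : j4 ≠ i) (hP : x' i * x i = x j1 * x j2 + x j3 * x j4) :
    AlgebraicIndependent ℂ x' := by
  have e1 : (fun j : {j // j ≠ i} => x' j) = fun j : {j // j ≠ i} => x j := by
    funext j; exact hne j j.2
  have e2 : x' '' {i}ᶜ = x '' {i}ᶜ := by
    apply Set.image_congr
    intro j hj
    exact hne j hj
  rw [AlgebraicIndependent.iff_transcendental_adjoin_image i] at hx ⊢
  have hxi := hx
  rw [← AlgebraicIndependent.iff_transcendental_adjoin_image i] at hxi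
  obtain ⟨ha, hb⟩ := hx
  refine ⟨by rw [e1]; exact ha, ?_⟩
  rw [e2]
  intro halg
  apply hb
  have hmem : ∀ j, j ≠ i → x j ∈ Algebra.adjoin ℂ (x '' {i}ᶜ) := fun j hj =>
    Algebra.subset_adjoin ⟨j, hj, rfl⟩
  have hPm : x j1 * x j2 + x j3 * x j4 ∈ Algebra.adjoin ℂ (x '' {i}ᶜ) :=
    add_mem (mul_mem (hmem _ h1) (hmem _ h2)) (mul_mem (hmem _ h3) (hmem _ h4))
  have hP0 : x j1 * x j2 + x j3 * x j4 ≠ 0 := by
    intro h0
    have h5 : MvPolynomial.aeval x (MvPolynomial.X j1 * MvPolynomial.X j2 +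
        MvPolynomial.X j3 * MvPolynomial.X j4 : MvPolynomial ι ℂ) = 0 := by
      rw [map_add, map_mul, map_mul, MvPolynomial.aeval_X, MvPolynomial.aeval_X,
        MvPolynomial.aeval_X, MvPolynomial.aeval_X]
      exact h0
    have h6 := (algebraicIndependent_iff.1 hxi) _ h5
    have h7 := congrArg (MvPolynomial.eval (fun _ => (1 : ℂ))) h6
    rw [map_add, map_mul, map_mul, MvPolynomial.eval_X, MvPolynomial.eval_X,
      MvPolynomial.eval_X, MvPolynomial.eval_X, map_zero] at h7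
    norm_num at h7
  have hy0 : x' i ≠ 0 := by
    intro h0
    rw [h0, zero_mul] at hP
    exact hP0 hP.symm
  have hxe : x i = (x' i)⁻¹ * (algebraMap (Algebra.adjoin ℂ (x '' {i}ᶜ)) K
      ⟨x j1 * x j2 + x j3 * x j4, hPm⟩) := by
    have : algebraMap (Algebra.adjoin ℂ (x '' {i}ᶜ)) K
      ⟨x j1 * x j2 + x j3 * x j4, hPm⟩ = x j1 * x j2 + x j3 * x j4 := rfl
    rw [this, ← hP]
    field_simp
  rw [hxe]
  exact (IsAlgebraic.inv halg).mul (isAlgebraic_algebraMap _)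

theorem lam_same (L : Lam G K) {a b c d : Cusp} (h : SameArc G a b c d) :
    L.lam c d = L.lam a b := by
  obtain ⟨g, hg, ⟨h1, h2⟩ | ⟨h1, h2⟩⟩ := h
  · rw [← h1, ← h2, L.inv g hg]
  · rw [← h1, ← h2, L.symm, L.inv g hg]

end Pool.Agent.Lib.MP_eee7a8_ag.TB.AFlipInd

namespace Pool.Agent.Lib.MP_eee7a8_ag.TB

open AFlipInd in
theorem flipind (hS : SidesStatement) : FlipIndStatement := by
  intro G K _ _ L hG ι _ T T' F hT hF hInd
  obtain ⟨i, a, f, -, h1, h2, h3, h4, hc, hs, rfl⟩ := hF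
  have hi : T.E G (T.s i) (T.t i) := T.E_self i
  have hsf : Simple G f a := hs.of_same (SameArc.rev a f)
  have key : ∀ c d : Cusp, T.E G c d → (¬ SameArc G (T.s i) (T.t i) c d) →
      ∃ j, j ≠ i ∧ L.lam c d = L.lam (T.s j) (T.t j) := by
    intro c d hE hn
    obtain ⟨j, hj⟩ := hE
    exact ⟨j, fun he => hn (he ▸ hj), lam_same L hj⟩
  have n1 : ¬ SameArc G (T.s i) (T.t i) a (T.s i) :=
    (hS G hG ι T hT a f (T.s i) (T.t i) hi h1 h2 h3 h4 hc hs).1
  have n2 : ¬ SameArc G (T.s i) (T.t i) a (T.t i) := fun h =>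
    (hS G hG ι T hT a f (T.t i) (T.s i) hi.symm h2 h1 h4 h3 (cross_comm_right.1 hc) hs).1
      ((SameArc.rev _ _).trans h)
  have n3 : ¬ SameArc G (T.s i) (T.t i) f (T.s i) :=
    (hS G hG ι T hT f a (T.s i) (T.t i) hi h3 h4 h1 h2 (cross_comm_left.1 hc) hsf).1
  have n4 : ¬ SameArc G (T.s i) (T.t i) f (T.t i) := fun h =>
    (hS G hG ι T hT f a (T.t i) (T.s i) hi.symm h4 h3 h2 h1
      (cross_comm_left.1 (cross_comm_right.1 hc)) hsf).1 ((SameArc.rev _ _).trans h)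
  obtain ⟨j1, k1, l1⟩ := key _ _ h1 n1
  obtain ⟨j2, k2, l2⟩ := key _ _ h4 n4
  obtain ⟨j3, k3, l3⟩ := key _ _ h2 n2
  obtain ⟨j4, k4, l4⟩ := key _ _ h3 n3
  have hP := L.ptolemy a f (T.s i) (T.t i) hc
  refine exchange (fun j => L.lam (T.s j) (T.t j)) _ i hInd ?_ j1 j2 j3 j4 k1 k2 k3 k4 ?_
  · intro j hj
    simp only [Fam.flip, if_neg hj]
  · simp only [Fam.flip, if_true]
    rw [hP, l1, l2, l3, l4]

end Pool.Agent.Lib.MP_eee7a8_ag.TB
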